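import Pool.Agent.Y981.QB.Uni

set_option autoImplicit false

/-!
# Pieces of self-avoiding walks on the honeycomb lattice: rare events for `m`-step walks are rare
along long walks (counting part)
-/

namespace Pool.Agent.R644.SP

open H978R2.Hex
open Pool.Agent.Y981.QB

theorem mu0_pos : 0 < mu0 := by
  unfold mu0
  positivity

/-- cutting a weighted sum over walks at the time `a` -/
theorem cut_sum (v : V) (n a : ℕ) (ha : a ≤ n) (f g : List V → ℝ) (hf : ∀ l, 0 ≤ f l)
    (hg : ∀ l, 0 ≤ g l) (P Q : ℝ) (hQ : 0 ≤ Q)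
    (hP : ∀ A : Finset (List V), (∀ l ∈ A, IsSW v a l) → ∑ l ∈ A, f l ≤ P)
    (hQ' : ∀ (u : V) (A : Finset (List V)), (∀ l ∈ A, IsSW u (n - a) l) → ∑ l ∈ A, g l ≤ Q)
    (F : Finset (List V)) (hF : ∀ l ∈ F, IsSW v n l) :
    ∑ l ∈ F, f (l.take (a + 1)) * g (l.drop a) ≤ P * Q := by
  classical
  set A : Finset (List V) := F.image (fun l => l.take (a + 1)) with hA
  have h1 : ∑ l ∈ F, f (l.take (a + 1)) * g (l.drop a) =
      ∑ b ∈ A, ∑ l ∈ F.filter (fun l => l.take (a + 1) = b), f (l.take (a + 1)) * g (l.drop a) :=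
    (Finset.sum_fiberwise_of_maps_to (fun l hl => Finset.mem_image_of_mem _ hl) _).symm
  have h2 : ∀ b ∈ A, ∑ l ∈ F.filter (fun l => l.take (a + 1) = b),
      f (l.take (a + 1)) * g (l.drop a) ≤ f b * Q := by
    intro b hb
    have h3 : ∑ l ∈ F.filter (fun l => l.take (a + 1) = b), f (l.take (a + 1)) * g (l.drop a) =
        f b * ∑ l ∈ F.filter (fun l => l.take (a + 1) = b), g (l.drop a) := by
      rw [Finset.mul_sum]
      refine Finset.sum_congr rfl fun l hl => ?_
      rw [(Finset.mem_filter.1 hl).2]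
    rw [h3]
    refine mul_le_mul_of_nonneg_left ?_ (hf b)
    have hinj : Set.InjOn (fun l : List V => l.drop a)
        (F.filter (fun l => l.take (a + 1) = b) : Finset (List V)) := by
      intro l hl l' hl' h
      have e1 := (Finset.mem_filter.1 (Finset.mem_coe.1 hl)).2
      have e2 := (Finset.mem_filter.1 (Finset.mem_coe.1 hl')).2
      have e3 : l.take a = l'.take a := by
        have h4 : (l.take (a + 1)).take a = (l'.take (a + 1)).take a := by rw [e1, e2]
        simpa [List.take_take] using h4
      rw [← List.take_append_drop a l, ← List.take_append_drop a l', e3]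
      exact congrArg _ h
    have h4 : ∑ l ∈ F.filter (fun l => l.take (a + 1) = b), g (l.drop a) =
        ∑ c ∈ (F.filter (fun l => l.take (a + 1) = b)).image (fun l => l.drop a), g c :=
      (Finset.sum_image hinj).symm
    rw [h4]
    refine hQ' (gt b a) _ ?_
    intro c hc
    rw [Finset.mem_image] at hc
    obtain ⟨l, hl, rfl⟩ := hc
    obtain ⟨hl1, hl2⟩ := Finset.mem_filter.1 hl
    have hl3 := hF l hl1
    refine isSW_drop hl3 ha ?_
    have hlen := hl3.1
    rw [← hl2, gt_take l (a + 1) a (by omega) (by omega), gt_eq l a (by omega)]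
    rw [List.head?_drop, List.getElem?_eq_getElem (by omega)]
  rw [h1]
  refine (Finset.sum_le_sum h2).trans ?_
  rw [← Finset.sum_mul]
  refine mul_le_mul_of_nonneg_right (hP A ?_) hQ
  intro b hb
  rw [hA, Finset.mem_image] at hb
  obtain ⟨l, hl, rfl⟩ := hb
  exact isSW_take (hF l hl) ha

open Classical in
/-- the number of the first `k` consecutive `m`-step pieces with the property `E` -/
noncomputable def bad (E : List V → Prop) (m : ℕ) : ℕ → List V → ℕ
  | 0, _ => 0
  | k + 1, l => (if E (l.take (m + 1)) then 1 else 0) + bad E m k (l.drop m)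

open Classical in
theorem bad_eq (E : List V → Prop) (m k : ℕ) (l : List V) :
    bad E m k l = Nat.count (fun i => E ((l.drop (i * m)).take (m + 1))) k := by
  induction k generalizing l with
  | zero => simp [bad]
  | succ k ih =>
    rw [Nat.count_succ', bad, ih, add_comm]
    simp only [zero_mul, List.drop_zero]
    congr 1
    congr 1
    funext i
    rw [List.drop_drop]
    congr 3
    ring

/-- weighted sum over the walks: every piece with property `E` has the weight `1 / η` -/
theorem block_sum (E : List V → Prop) (m : ℕ) (X Y η : ℝ) (hX : 1 ≤ X) (hY : 0 ≤ Y)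
    (hη : 0 < η) (hη1 : η ≤ 1)
    (h1 : ∀ (v : V) (F : Finset (List V)), (∀ l ∈ F, IsSW v m l) → (F.card : ℝ) ≤ mu0 ^ m * X)
    (h2 : ∀ (v : V) (F : Finset (List V)), (∀ l ∈ F, IsSW v m l ∧ E l) →
      (F.card : ℝ) ≤ mu0 ^ m * (X * η))
    (s : ℕ) (h3 : ∀ (v : V) (F : Finset (List V)), (∀ l ∈ F, IsSW v s l) →
      (F.card : ℝ) ≤ mu0 ^ s * Y) (k : ℕ) :
    ∀ (v : V) (F : Finset (List V)), (∀ l ∈ F, IsSW v (k * m + s) l) →
      ∑ l ∈ F, (1 / η) ^ (bad E m k l) ≤ mu0 ^ (k * m + s) * ((2 * X) ^ k * Y) := by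
  classical
  have hmu : 0 < mu0 := mu0_pos
  have hη' : 0 < 1 / η := by positivity
  induction k with
  | zero =>
    intro v F hF
    simp only [bad, pow_zero, Finset.sum_const, nsmul_eq_mul, mul_one, zero_mul, zero_add, one_mul]
    exact h3 v F (by simpa using hF)
  | succ k ih =>
    intro v F hF
    have hn : (k + 1) * m + s = k * m + s + m := by ring
    have h4 := cut_sum v ((k + 1) * m + s) m (by rw [hn]; omega)
      (fun l => (1 / η) ^ (if E l then 1 else 0)) (fun l => (1 / η) ^ (bad E m k l))
      (fun l => by positivity) (fun l => by positivity) (mu0 ^ m * (2 * X))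
      (mu0 ^ (k * m + s) * ((2 * X) ^ k * Y)) (by positivity) ?_ ?_ F hF
    · refine le_trans (le_of_eq ?_) (h4.trans (le_of_eq ?_))
      · refine Finset.sum_congr rfl fun l _ => ?_
        rw [bad, pow_add]
      · rw [hn, pow_add, pow_succ]
        ring
    · intro A hA
      have h5 : ∑ l ∈ A, (1 / η) ^ (if E l then 1 else 0) ≤
          ∑ l ∈ A, ((1 : ℝ) + if E l then (1 / η) else 0) := by
        refine Finset.sum_le_sum fun l _ => ?_
        by_cases hE : E l
        · simp [hE]
        · simp [hE]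
      refine h5.trans ?_
      rw [Finset.sum_add_distrib, ← Finset.sum_filter, Finset.sum_const, Finset.sum_const,
        nsmul_eq_mul, nsmul_eq_mul, mul_one]
      have h6 := h1 v A hA
      have h7 := h2 v (A.filter E) (fun l hl =>
        ⟨hA l (Finset.mem_filter.1 hl).1, (Finset.mem_filter.1 hl).2⟩)
      have h8 : ((A.filter E).card : ℝ) * (1 / η) ≤ mu0 ^ m * X := by
        rw [mul_one_div, div_le_iff₀ hη]
        linarith
      linarith
    · intro u A hA
      refine ih u A ?_
      intro l hl
      have := hA l hl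
      rwa [show (k + 1) * m + s - m = k * m + s by rw [hn]; omega] at this

open Classical in
/-- the number of the `m`-step pieces of `l` with the property `E` -/
noncomputable def tot (E : List V → Prop) (m : ℕ) (l : List V) : ℕ :=
  ((Finset.range l.length).filter
    (fun j => j + m < l.length ∧ E ((l.drop j).take (m + 1)))).card

/-- the pieces which start at the times `r, r + m, …` -/
theorem tot_le (E : List V → Prop) (m : ℕ) (hm : 1 ≤ m) (n : ℕ) (l : List V)
    (hl : l.length = n + 1) :
    tot E m l ≤ ∑ r ∈ (Finset.range m).filter (fun r => r ≤ n),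
      bad E m ((n - r) / m) (l.drop r) := by
  classical
  unfold tot
  have h1 : ((Finset.range l.length).filter
      (fun j => j + m < l.length ∧ E ((l.drop j).take (m + 1)))) ⊆
      ((Finset.range m).filter (fun r => r ≤ n)).biUnion (fun r =>
        ((Finset.range ((n - r) / m)).filter
          (fun i => E (((l.drop r).drop (i * m)).take (m + 1)))).image (fun i => r + i * m)) := by
    intro j hj
    rw [Finset.mem_filter, Finset.mem_range] at hj
    obtain ⟨hj1, hj2, hj3⟩ := hj
    rw [Finset.mem_biUnion]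
    have hjm := Nat.mod_lt j (show 0 < m by omega)
    have hjd : j % m + j / m * m = j := by
      rw [mul_comm]
      exact Nat.mod_add_div j m
    refine ⟨j % m, ?_, ?_⟩
    · rw [Finset.mem_filter, Finset.mem_range]
      exact ⟨hjm, by omega⟩
    · rw [Finset.mem_image]
      refine ⟨j / m, ?_, hjd⟩
      rw [Finset.mem_filter, Finset.mem_range]
      constructor
      · rw [Nat.lt_iff_add_one_le, Nat.le_div_iff_mul_le (by omega)]
        rw [add_mul, one_mul]
        omega
      · rw [List.drop_drop, hjd]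
        exact hj3
  refine (Finset.card_le_card h1).trans (Finset.card_biUnion_le.trans ?_)
  refine Finset.sum_le_sum fun r _ => ?_
  refine Finset.card_image_le.trans ?_
  rw [bad_eq, Nat.count_eq_card_filter_range]

/-- **Counting bound.**  If the proportion of the `m`-step walks with property `E` is at most `η`,
then few `n`-step walks have more than `θ n` pieces with property `E`. -/
theorem count_bad (E : List V → Prop) (m : ℕ) (hm : 1 ≤ m) (X Y η θ : ℝ) (hX : 1 ≤ X) (hY : 0 ≤ Y)
    (hη : 0 < η) (hη1 : η < 1) (hθ : (Real.log X + 2) / Real.log (1 / η) ≤ θ)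
    (h1 : ∀ (v : V) (F : Finset (List V)), (∀ l ∈ F, IsSW v m l) → (F.card : ℝ) ≤ mu0 ^ m * X)
    (h2 : ∀ (v : V) (F : Finset (List V)), (∀ l ∈ F, IsSW v m l ∧ E l) →
      (F.card : ℝ) ≤ mu0 ^ m * (X * η))
    (h3 : ∀ s < m, ∀ (v : V) (F : Finset (List V)), (∀ l ∈ F, IsSW v s l) →
      (F.card : ℝ) ≤ mu0 ^ s * Y) (n : ℕ) (v : V) (F : Finset (List V))
    (hF : ∀ l ∈ F, IsSW v n l ∧ θ * n < tot E m l) :
    (F.card : ℝ) ≤ mu0 ^ n * (m * Y ^ 2 * Real.exp (-(n / m : ℝ))) := by
  classical
  have hmu : 0 < mu0 := mu0_pos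
  have hm0 : (0 : ℝ) < m := by exact_mod_cast hm
  have hlη : 0 < Real.log (1 / η) := Real.log_pos (by rw [lt_div_iff₀ hη]; linarith)
  have hlX : 0 ≤ Real.log X := Real.log_nonneg hX
  have hθ0 : 0 < θ := lt_of_lt_of_le (by positivity) hθ
  -- choice of the residue
  have hex : ∀ l ∈ F, ∃ r ∈ (Finset.range m).filter (fun r => r ≤ n),
      θ * (n / m : ℝ) ≤ (bad E m ((n - r) / m) (l.drop r) : ℝ) := by
    intro l hl
    obtain ⟨hl1, hl2⟩ := hF l hl
    by_contra hcon
    push Not at hcon
    have h4 := tot_le E m hm n l hl1.1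
    have h5 : (tot E m l : ℝ) ≤ ∑ r ∈ (Finset.range m).filter (fun r => r ≤ n),
        (bad E m ((n - r) / m) (l.drop r) : ℝ) := by
      exact_mod_cast h4
    have h6 : ∑ r ∈ (Finset.range m).filter (fun r => r ≤ n),
        (bad E m ((n - r) / m) (l.drop r) : ℝ) ≤
        ∑ r ∈ (Finset.range m).filter (fun r => r ≤ n), θ * (n / m : ℝ) :=
      Finset.sum_le_sum fun r hr => (hcon r hr).le
    have h7 : ∑ r ∈ (Finset.range m).filter (fun r => r ≤ n), θ * (n / m : ℝ) ≤ θ * n := by
      rw [Finset.sum_const, nsmul_eq_mul]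
      have h8 : (((Finset.range m).filter (fun r => r ≤ n)).card : ℝ) ≤ m := by
        have := Finset.card_filter_le (Finset.range m) (fun r => r ≤ n)
        rw [Finset.card_range] at this
        exact_mod_cast this
      have h9 : 0 ≤ θ * (n / m : ℝ) := by positivity
      calc (((Finset.range m).filter (fun r => r ≤ n)).card : ℝ) * (θ * (n / m : ℝ)) ≤
          m * (θ * (n / m : ℝ)) := mul_le_mul_of_nonneg_right h8 h9
        _ = θ * n := by field_simp
    linarith
  -- counting for one residue
  have hone : ∀ r ∈ (Finset.range m).filter (fun r => r ≤ n), ∀ G : Finset (List V), G ⊆ F →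
      (∀ l ∈ G, θ * (n / m : ℝ) ≤ (bad E m ((n - r) / m) (l.drop r) : ℝ)) →
      (G.card : ℝ) ≤ mu0 ^ n * (Y ^ 2 * Real.exp (-(n / m : ℝ))) := by
    intro r hr G hGF hG
    rw [Finset.mem_filter, Finset.mem_range] at hr
    obtain ⟨hr1, hr2⟩ := hr
    set k := (n - r) / m with hk
    set s := (n - r) % m with hs
    have hsm : s < m := Nat.mod_lt _ (by omega)
    have hkm : k * m + s = n - r := by
      rw [hk, hs, mul_comm]
      exact Nat.div_add_mod _ _
    have h4 := cut_sum v n r hr2 (fun _ => 1) (fun l => (1 / η) ^ (bad E m k l))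
      (fun l => by positivity) (fun l => by positivity) (mu0 ^ r * Y)
      (mu0 ^ (k * m + s) * ((2 * X) ^ k * Y)) (by positivity) ?_ ?_ G
      (fun l hl => (hF l (hGF hl)).1)
    · have h5 : (G.card : ℝ) * (1 / η) ^ (θ * (n / m : ℝ)) ≤
          ∑ l ∈ G, (1 : ℝ) * (1 / η) ^ (bad E m k (l.drop r)) := by
        rw [← nsmul_eq_mul, ← Finset.sum_const]
        refine Finset.sum_le_sum fun l hl => ?_
        rw [one_mul, ← Real.rpow_natCast]
        exact Real.rpow_le_rpow_of_exponent_le (by rw [le_div_iff₀ hη]; linarith) (hG l hl)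
      have h6 := h5.trans h4
      have h7 : mu0 ^ r * Y * (mu0 ^ (k * m + s) * ((2 * X) ^ k * Y)) =
          mu0 ^ n * (Y ^ 2 * (2 * X) ^ k) := by
        have : n = r + (k * m + s) := by omega
        conv_rhs => rw [this, pow_add]
        ring
      rw [h7] at h6
      have hpos : 0 < (1 / η) ^ (θ * (n / m : ℝ)) := by positivity
      have h8 : (G.card : ℝ) ≤ mu0 ^ n * (Y ^ 2 * (2 * X) ^ k) / (1 / η) ^ (θ * (n / m : ℝ)) := by
        rw [le_div_iff₀ hpos]
        exact h6
      refine h8.trans ?_
      rw [mul_div_assoc, mul_div_assoc]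
      refine mul_le_mul_of_nonneg_left (mul_le_mul_of_nonneg_left ?_ (by positivity))
        (by positivity)
      rw [div_le_iff₀ hpos, Real.rpow_def_of_pos (by positivity), ← Real.exp_add]
      have h9 : (2 * X) ^ k = Real.exp (k * Real.log (2 * X)) := by
        rw [Real.exp_nat_mul, Real.exp_log (by linarith)]
      rw [h9]
      refine Real.exp_le_exp.mpr ?_
      have hkn : (k : ℝ) ≤ n / m := by
        rw [le_div_iff₀ hm0]
        have : k * m ≤ n := by omega
        exact_mod_cast this
      have hlog2 : Real.log (2 * X) ≤ 1 + Real.log X := by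
        rw [Real.log_mul (by norm_num) (by linarith)]
        have := Real.log_two_lt_d9
        linarith
      have hlog2' : 0 ≤ Real.log (2 * X) := Real.log_nonneg (by linarith)
      have hθ' : Real.log X + 2 ≤ θ * Real.log (1 / η) := by
        rwa [div_le_iff₀ hlη] at hθ
      have hnm : (0 : ℝ) ≤ n / m := by positivity
      calc (k : ℝ) * Real.log (2 * X) ≤ (n / m : ℝ) * (1 + Real.log X) :=
            mul_le_mul hkn hlog2 hlog2' hnm
        _ ≤ -(n / m : ℝ) + Real.log (1 / η) * (θ * (n / m : ℝ)) := by nlinarith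
    · intro A hA
      rw [Finset.sum_const, nsmul_eq_mul, mul_one]
      exact h3 r hr1 v A hA
    · intro u A hA
      refine block_sum E m X Y η hX hY hη hη1.le h1 h2 s (h3 s hsm) k u A ?_
      rw [hkm]
      exact hA
  have h4 := union_bound F ((Finset.range m).filter (fun r => r ≤ n))
    (fun l r => θ * (n / m : ℝ) ≤ (bad E m ((n - r) / m) (l.drop r) : ℝ))
    (mu0 ^ n * (Y ^ 2 * Real.exp (-(n / m : ℝ)))) (fun l hl => by
      obtain ⟨r, hr, h⟩ := hex l hl
      exact ⟨r, hr, h⟩) hone
  refine h4.trans ?_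
  have h8 : (((Finset.range m).filter (fun r => r ≤ n)).card : ℝ) ≤ m := by
    have := Finset.card_filter_le (Finset.range m) (fun r => r ≤ n)
    rw [Finset.card_range] at this
    exact_mod_cast this
  calc (((Finset.range m).filter (fun r => r ≤ n)).card : ℝ) *
        (mu0 ^ n * (Y ^ 2 * Real.exp (-(n / m : ℝ)))) ≤
      m * (mu0 ^ n * (Y ^ 2 * Real.exp (-(n / m : ℝ)))) :=
        mul_le_mul_of_nonneg_right h8 (by positivity)
    _ = _ := by ring

end Pool.Agent.R644.SP
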