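import Pool.Agent.Y981.QB.Br2
import Pool.Agent.Y67.QB.CN
import Pool.Agent.R644.SP.Block

set_option autoImplicit false

/-! The number of `m`-step self-avoiding walks (lists) on the honeycomb lattice. -/

namespace Pool.Agent.R644.SP

open H978R2.Hex
open Pool.Agent.Y981.QB

/-- the `m`-step walks from `v` -/
def SWs (v : V) (m : ℕ) : Set (List V) := {l | IsSW v m l}

theorem sw_finite (hCN : S_CN) (v : V) (m : ℕ) : (SWs v m).Finite := by
  classical
  obtain ⟨K, -, h⟩ := hCN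
  by_contra hinf
  obtain ⟨F, hF, hcard⟩ := Set.Infinite.exists_subset_card_eq hinf
    (⌈mu0 ^ m * Real.exp (K * Real.log (m + 2) ^ 2)⌉₊ + 1)
  have h1 := h v m F (fun l hl => hF hl)
  rw [hcard] at h1
  have h2 := Nat.le_ceil (mu0 ^ m * Real.exp (K * Real.log (m + 2) ^ 2))
  push_cast at h1
  linarith

theorem card_le_ncard (hCN : S_CN) (v : V) (m : ℕ) (E : List V → Prop) (F : Finset (List V))
    (hF : ∀ l ∈ F, IsSW v m l ∧ E l) : F.card ≤ {l ∈ SWs v m | E l}.ncard := by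
  rw [← Set.ncard_coe_finset]
  exact Set.ncard_le_ncard (fun l hl => ⟨(hF l (Finset.mem_coe.1 hl)).1,
    (hF l (Finset.mem_coe.1 hl)).2⟩) ((sw_finite hCN v m).subset fun l hl => hl.1)

theorem exists_T' (v : V) : ∃ T : V → V, Function.Injective T ∧ T (0, 0) = v ∧
    ∀ p q, Adj p q → Adj (T p) (T q) := by
  obtain ⟨x, y⟩ := v
  rcases Int.even_or_odd (x + y) with hv | hv
  · refine ⟨fun w => (w.1 + x, w.2 + y), ?_, by simp, ?_⟩
    · rintro ⟨a, b⟩ ⟨c, d⟩ h
      simp only [Prod.mk.injEq] at h ⊢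
      omega
    · rintro ⟨a, b⟩ ⟨c, d⟩ h
      unfold Adj at h ⊢
      simp only [Prod.mk_sub_mk, Prod.mk.injEq, Int.even_iff] at h hv ⊢
      omega
  · refine ⟨fun w => (x - w.1, y - w.2), ?_, by simp, ?_⟩
    · rintro ⟨a, b⟩ ⟨c, d⟩ h
      simp only [Prod.mk.injEq] at h ⊢
      omega
    · rintro ⟨a, b⟩ ⟨c, d⟩ h
      unfold Adj at h ⊢
      simp only [Prod.mk_sub_mk, Prod.mk.injEq, Int.even_iff, Int.odd_iff] at h hv ⊢
      omega

theorem sw_card_le (hCN : S_CN) {v w : V} {T : V → V} (hT : Function.Injective T) (hv : T v = w)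
    (hA : ∀ p q, Adj p q → Adj (T p) (T q)) (m : ℕ) : (SWs v m).ncard ≤ (SWs w m).ncard := by
  refine Set.ncard_le_ncard_of_injOn (fun l => l.map T) (fun l hl => ?_)
    (fun l _ l' _ h => List.map_injective_iff.2 hT h) (sw_finite hCN w m)
  have := isSW_map T hT hA (show IsSW v m l from hl)
  rw [hv] at this
  exact this

theorem sw_card (hCN : S_CN) (v : V) (m : ℕ) : (SWs v m).ncard = (SWs (0, 0) m).ncard := by
  obtain ⟨T, h1, h2, h3⟩ := Pool.Agent.Y67.QB.exists_T v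
  obtain ⟨T', h1', h2', h3'⟩ := exists_T' v
  exact le_antisymm (sw_card_le hCN h1 h2 h3 m) (sw_card_le hCN h1' h2' h3' m)

theorem sw_lower (hCN : S_CN) (m : ℕ) : mu0 ^ m ≤ ((SWs (0, 0) m).ncard : ℝ) := by
  refine (saws_lower m).trans ?_
  have h1 := ncard_le_of_lists m (fun _ => True) (fun _ => True) ((SWs (0, 0) m).ncard : ℝ)
    (fun _ _ _ => trivial) (fun F hF => by
      have h2 := card_le_ncard hCN (0, 0) m (fun _ => True) F hF
      have h3 : {l ∈ SWs (0, 0) m | True} = SWs (0, 0) m := by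
        ext l
        simp
      rw [h3] at h2
      exact_mod_cast h2)
  have h4 : {ω ∈ saws m | True} = saws m := by
    ext ω
    simp
  rwa [h4] at h1

theorem sw_upper (hCN : S_CN) : ∃ K : ℝ, 0 ≤ K ∧ ∀ m : ℕ, 2 ≤ m →
    ((SWs (0, 0) m).ncard : ℝ) ≤ mu0 ^ m * Real.exp (K * Real.log m ^ 2) := by
  obtain ⟨K, hK, h⟩ := hCN
  refine ⟨4 * K, by positivity, fun m hm => ?_⟩
  have hfin := sw_finite ⟨K, hK, h⟩ (0, 0) m
  have h1 := h (0, 0) m hfin.toFinset (by
    intro l hl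
    have h0 := (Set.Finite.mem_toFinset hfin).1 hl
    exact h0)
  rw [← Set.ncard_eq_toFinset_card _ hfin] at h1
  refine h1.trans (mul_le_mul_of_nonneg_left (Real.exp_le_exp.mpr ?_)
    (pow_pos mu0_pos m).le)
  have hm2 : (2 : ℝ) ≤ m := by exact_mod_cast hm
  have h2 : Real.log ((m : ℝ) + 2) ≤ 2 * Real.log m := by
    have h3 : Real.log ((m : ℝ) ^ 2) = 2 * Real.log m := by
      rw [Real.log_pow]
      norm_num
    rw [← h3]
    exact Real.log_le_log (by linarith) (by nlinarith)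
  have h3 : 0 ≤ Real.log ((m : ℝ) + 2) := Real.log_nonneg (by linarith)
  have h4 : Real.log ((m : ℝ) + 2) ^ 2 ≤ (2 * Real.log m) ^ 2 := pow_le_pow_left₀ h3 h2 2
  nlinarith

end Pool.Agent.R644.SP
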