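import Pool.Agent.Y981.QB.Dom
import Pool.Agent.R644.SP.Block

set_option autoImplicit false

/-! Pieces of the critical self-avoiding walk in a domain. -/

namespace Pool.Agent.R644.SP

open H978R2.Hex
open Pool.Agent.Y981.QB
open Pool.Agent.W832.HR (Nbr Traj xc Z emb lv HD Hd Bd)
open scoped ENNReal

/-- **Rare events for pieces of the critical walk in a domain.** -/
theorem dom_pieces (hCN : S_CN) (W : Set ℂ) (hW : IsOpen W) (hc : IsConnected W) (a b : ℂ)
    (hab : a ≠ b) (ε ε' : ℝ) (hε : ε = 1 ∨ ε = -1) (hε' : ε' = 1 ∨ ε' = -1) (r : ℝ) (hr : 0 < r)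
    (ha : HD a ε r ⊆ W) (hb : HD b ε' r ⊆ W) (M : ℝ) :
    ∃ K : Set ℂ, K ⊆ W ∧ IsCompact K ∧ ∃ c C : ℝ, 0 < c ∧ 1 ≤ C ∧ ∀ δ : ℝ, 0 < δ → C * δ ≤ 1 →
      ∀ (D : Set V) (p q : V), Bd ε p → Bd ε' q →
      C * ‖(δ : ℂ) * emb p - a‖ ≤ 1 → C * ‖(δ : ℂ) * emb q - b‖ ≤ 1 →
      (∀ v : V, (δ : ℂ) * emb v ∈ K → v ∈ D) → Hd δ ε r p ⊆ D → Hd δ ε' r q ⊆ D →
      (∀ v ∈ D, ‖(δ : ℂ) * emb v‖ ≤ M) →
      0 < Z D p q ∧ Z D p q < ⊤ ∧ ∀ (m : ℕ) (E : List V → Prop) (X η θ : ℝ), 2 ≤ m →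
        C * (m * Real.log (1 / δ) ^ 2) ≤ 1 / δ → 1 ≤ X → 0 < η → η < 1 →
        (Real.log X + 2) / Real.log (1 / η) ≤ θ →
        (∀ (v : V) (F : Finset (List V)), (∀ l ∈ F, IsSW v m l) → (F.card : ℝ) ≤ mu0 ^ m * X) →
        (∀ (v : V) (F : Finset (List V)), (∀ l ∈ F, IsSW v m l ∧ E l) →
          (F.card : ℝ) ≤ mu0 ^ m * (X * η)) →
        PE D p q (fun l => θ * ((l.length - 1 : ℕ) : ℝ) < tot E m l) ≤
        ENNReal.ofReal (Real.exp (-(c / (δ * m)))) := by
  obtain ⟨K, hK, hKc, C₁, hC₁, h⟩ := Pool.Agent.Y981.Sup.low W hW hc a b hab ε ε' hε hε' r hr ha hb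
  obtain ⟨C₃, hC₃, hcard⟩ := domain_card M
  obtain ⟨K', -, hquasi⟩ := Pool.Agent.Y981.Sup.quasi (max M 0) (le_max_right _ _)
  obtain ⟨Kc, hKc0, hcn⟩ := hCN
  have hab' : 0 < ‖a - b‖ := norm_pos_iff.2 (sub_ne_zero.2 hab)
  have hC1r : (9 : ℝ) ≤ C₁ := by exact_mod_cast hC₁
  set c1 : ℝ := ‖a - b‖ / 2 with hc1
  have hc1pos : 0 < c1 := by positivity
  set B : ℝ := 4 + C₁ + 8 * Kc with hB
  have hB0 : 0 < B := by linarith
  set C : ℝ := C₁ + 100 + 32 / ‖a - b‖ + Real.exp (3 + C₃) + 2 * B / c1 with hCdef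
  have hdiv : 0 < 32 / ‖a - b‖ := by positivity
  have hdiv2 : 0 < 2 * B / c1 := by positivity
  have hexp := Real.exp_pos (3 + C₃)
  have hC100 : 100 ≤ C := by rw [hCdef]; linarith
  have hCC1 : (C₁ : ℝ) ≤ C := by rw [hCdef]; linarith
  have hCab : 32 / ‖a - b‖ ≤ C := by rw [hCdef]; linarith
  have hCexp : Real.exp (3 + C₃) ≤ C := by rw [hCdef]; linarith
  have hCB : 2 * B / c1 ≤ C := by rw [hCdef]; linarith
  refine ⟨K, hK, hKc, c1 / 2, C, by positivity, by linarith, ?_⟩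
  intro δ hδ hCδ D p q hp hq hpa hqb hKD hpD hqD hDM
  have hδ1 : δ ≤ 1 / 100 := by
    by_contra hcon
    have : 1 / 100 < δ := not_le.1 hcon
    nlinarith
  have hmono : ∀ x : ℝ, 0 ≤ x → C * x ≤ 1 → C₁ * x ≤ 1 := fun x hx h1 =>
    (mul_le_mul_of_nonneg_right hCC1 hx).trans h1
  obtain ⟨hpq, hlow⟩ := h δ hδ (hmono δ hδ.le hCδ) D p q hp hq (hmono _ (norm_nonneg _) hpa)
    (hmono _ (norm_nonneg _) hqb) hKD hpD hqD
  have hZ := hlow D (Set.Subset.refl D)
  refine ⟨lt_of_lt_of_le (ENNReal.ofReal_pos.2 (by positivity)) hZ,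
    (hquasi δ hδ (by linarith) D (fun v hv => (hDM v hv).trans (le_max_left _ _)) p q).trans_lt
      ENNReal.ofReal_lt_top, ?_⟩
  intro m E X η θ hm hmδ hX hη hη1 hθ h1 h2
  obtain ⟨D', hD', hDc⟩ := hcard δ hδ (by linarith) D hDM
  set L : ℝ := Real.log (1 / δ) with hL
  have hLge : 3 + C₃ ≤ L := by
    rw [hL, Real.le_log_iff_exp_le (by positivity), le_div_iff₀ hδ]
    exact (mul_le_mul_of_nonneg_right hCexp hδ.le).trans hCδ
  have hL1 : 4 ≤ L := by linarith
  have hδL : 1 / δ = Real.exp L := (Real.exp_log (by positivity)).symm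
  have hC3L : C₃ ≤ Real.exp L := by
    have := Real.add_one_le_exp L
    linarith
  have hcardL : (D'.card : ℝ) ≤ Real.exp (3 * L) := by
    refine hDc.trans ?_
    rw [hδL]
    calc C₃ * Real.exp L ^ 2 ≤ Real.exp L * Real.exp L ^ 2 :=
          mul_le_mul_of_nonneg_right hC3L (by positivity)
      _ = Real.exp (3 * L) := by
          rw [show 3 * L = L + (L + L) by ring, Real.exp_add, Real.exp_add]; ring
  have hm0 : (0 : ℝ) < m := by
    have : 0 < m := by omega
    exact_mod_cast this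
  have hm2 : (2 : ℝ) ≤ m := by exact_mod_cast hm
  have hL2 : (16 : ℝ) ≤ L ^ 2 := by nlinarith
  have hmL : (m : ℝ) ≤ 1 / δ := by
    refine le_trans ?_ hmδ
    have h5 : (1 : ℝ) ≤ C * L ^ 2 := by nlinarith
    nlinarith
  have hmexp : (m : ℝ) ≤ Real.exp L := by rw [← hδL]; exact hmL
  have hm2exp : ((m : ℝ) + 2) ≤ Real.exp (2 * L) := by
    have h5 : (4 : ℝ) ≤ Real.exp L := by
      have := Real.add_one_le_exp L
      linarith
    have h6 : Real.exp (2 * L) = Real.exp L * Real.exp L := by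
      rw [two_mul, Real.exp_add]
    rw [h6]
    nlinarith
  have hlogm : Real.log ((m : ℝ) + 2) ≤ 2 * L := by
    rw [Real.log_le_iff_le_exp (by linarith)]
    exact hm2exp
  have hlogm0 : 0 ≤ Real.log ((m : ℝ) + 2) := Real.log_nonneg (by linarith)
  have hdL : c1 / δ ≤ dst p q :=
    far hδ (by
      have := mul_le_mul_of_nonneg_right hCab hab'.le
      rw [div_mul_cancel₀ _ hab'.ne'] at this
      linarith) (by linarith) hpa hqb
  set Y : ℝ := Real.exp (Kc * Real.log ((m : ℝ) + 2) ^ 2) with hY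
  have hY0 : 0 < Y := Real.exp_pos _
  have hYle : Y ^ 2 ≤ Real.exp (8 * Kc * L ^ 2) := by
    rw [hY, ← Real.exp_nat_mul]
    refine Real.exp_le_exp.mpr ?_
    have h5 : Real.log ((m : ℝ) + 2) ^ 2 ≤ (2 * L) ^ 2 := pow_le_pow_left₀ hlogm0 hlogm 2
    push_cast
    nlinarith
  rw [← hD']
  refine crit_prob D' p q _ (m * Y ^ 2 * Real.exp (-(c1 / (δ * m)))) (δ ^ C₁)
    (Real.exp (-(c1 / 2 / (δ * m)))) (by positivity)
    (by positivity) (by rw [hD']; exact hZ) ?_ ?_ (Real.exp_pos _).le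
  · intro n hn F hF
    rcases Finset.eq_empty_or_nonempty F with hF0 | ⟨l0, hl0⟩
    · rw [hF0, Finset.card_empty, Nat.cast_zero]
      have := Pool.Agent.R644.SP.mu0_pos
      positivity
    · have hnδ : c1 / δ ≤ n := by
        obtain ⟨h3, h4, -⟩ := hF l0 hl0
        exact hdL.trans (sw_far h3 h4).1
      have h5 := count_bad E m (by omega) X Y η θ hX hY0.le hη hη1 hθ h1 h2 (fun s hs v G hG => by
        refine (hcn v s G hG).trans ?_
        refine mul_le_mul_of_nonneg_left ?_ (by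
          have := Pool.Agent.R644.SP.mu0_pos
          positivity)
        refine Real.exp_le_exp.mpr (mul_le_mul_of_nonneg_left ?_ hKc0)
        have hs' : ((s : ℝ) + 2) ≤ (m : ℝ) + 2 := by
          have : (s : ℝ) ≤ m := by exact_mod_cast hs.le
          linarith
        have hs0 : (0 : ℝ) ≤ s := Nat.cast_nonneg s
        exact pow_le_pow_left₀ (Real.log_nonneg (by linarith))
          (Real.log_le_log (by linarith) hs') 2) n p F (fun l hl => by
          obtain ⟨h3, h4, h5⟩ := hF l hl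
          refine ⟨h3, ?_⟩
          have h6 : l.length - 1 = n := by
            rw [h3.1]
            omega
          rwa [h6] at h5)
      refine h5.trans ?_
      have := Pool.Agent.R644.SP.mu0_pos
      refine mul_le_mul_of_nonneg_left (mul_le_mul_of_nonneg_left ?_ (by positivity))
        (by positivity)
      refine Real.exp_le_exp.mpr (neg_le_neg ?_)
      rw [← div_div]
      exact div_le_div_of_nonneg_right hnδ hm0.le
  · -- numerics
    have hδpow : δ ^ C₁ = Real.exp (-(C₁ * L)) := by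
      have h1 : δ = Real.exp (-L) := by
        rw [hL, one_div, Real.log_inv, neg_neg, Real.exp_log hδ]
      calc δ ^ C₁ = (Real.exp (-L)) ^ C₁ := by rw [← h1]
        _ = Real.exp (-(C₁ * L)) := by
            rw [← Real.exp_nat_mul]
            congr 1
            ring
    have hkey : B * L ^ 2 ≤ c1 / 2 / (δ * m) := by
      have h5 : C * L ^ 2 ≤ 1 / (δ * m) := by
        rw [le_div_iff₀ (by positivity)]
        rw [le_div_iff₀ hδ] at hmδ
        linarith
      have h6 : 2 * B ≤ C * c1 := by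
        rwa [div_le_iff₀ hc1pos] at hCB
      have h7 : c1 / 2 / (δ * m) = c1 / 2 * (1 / (δ * m)) := by ring
      rw [h7]
      calc B * L ^ 2 ≤ c1 / 2 * (C * L ^ 2) := by nlinarith [sq_nonneg L]
        _ ≤ _ := mul_le_mul_of_nonneg_left h5 (by positivity)
    have hsplit : c1 / (δ * m) = c1 / 2 / (δ * m) + c1 / 2 / (δ * m) := by ring
    rw [hδpow, ← Real.exp_add]
    calc (D'.card : ℝ) * (m * Y ^ 2 * Real.exp (-(c1 / (δ * m)))) ≤
        Real.exp (3 * L) * (Real.exp L * Real.exp (8 * Kc * L ^ 2) *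
          Real.exp (-(c1 / (δ * m)))) := by
          refine mul_le_mul hcardL ?_ (by positivity) (Real.exp_pos _).le
          refine mul_le_mul_of_nonneg_right ?_ (Real.exp_pos _).le
          exact mul_le_mul hmexp hYle (by positivity) (Real.exp_pos _).le
      _ = Real.exp (3 * L + (L + 8 * Kc * L ^ 2 + -(c1 / (δ * m)))) := by
          rw [Real.exp_add, Real.exp_add, Real.exp_add]
      _ ≤ _ := by
          refine Real.exp_le_exp.mpr ?_
          rw [hsplit]
          have hLL : L ≤ L ^ 2 := by nlinarith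
          have h8 : 4 * L + C₁ * L ≤ (4 + C₁) * L ^ 2 := by
            calc 4 * L + C₁ * L = (4 + C₁) * L := by ring
              _ ≤ (4 + C₁) * L ^ 2 := mul_le_mul_of_nonneg_left hLL (by linarith)
          have h9 : B * L ^ 2 = (4 + C₁) * L ^ 2 + 8 * Kc * L ^ 2 := by rw [hB]; ring
          linarith

end Pool.Agent.R644.SP
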