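import Pool.Agent.Y981.QB.Fin3
import Pool.Agent.R644.SP.Dom
import Pool.Agent.R644.SP.Count

set_option autoImplicit false

/-! Pieces of the critical self-avoiding walk in a domain: final form. -/

namespace Pool.Agent.R644.SP

open H978R2.Hex
open Pool.Agent.Y981.QB
open Pool.Agent.W832.HR (Nbr Traj xc Z emb lv HD Hd Bd)
open scoped ENNReal

/-- `log (c_m / μ ^ m)` -/
noncomputable def bt (m : ℕ) : ℝ := Real.log (((SWs (0, 0) m).ncard : ℝ) / mu0 ^ m)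

theorem bt_nonneg (hCN : S_CN) (m : ℕ) : 0 ≤ bt m := by
  refine Real.log_nonneg ?_
  rw [le_div_iff₀ (pow_pos mu0_pos m), one_mul]
  exact sw_lower hCN m

theorem exp_bt (hCN : S_CN) (m : ℕ) : mu0 ^ m * Real.exp (bt m) = (SWs (0, 0) m).ncard := by
  have h1 := pow_pos mu0_pos m
  have h2 := sw_lower hCN m
  unfold bt
  rw [Real.exp_log (by
    have : (0 : ℝ) < (SWs (0, 0) m).ncard := by linarith
    positivity)]
  field_simp

theorem count_all (hCN : S_CN) (m : ℕ) (v : V) (F : Finset (List V)) (hF : ∀ l ∈ F, IsSW v m l) :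
    (F.card : ℝ) ≤ mu0 ^ m * Real.exp (bt m) := by
  rw [exp_bt hCN, ← sw_card hCN v m]
  have h2 := card_le_ncard hCN v m (fun _ => True) F (fun l hl => ⟨hF l hl, trivial⟩)
  have h3 : {l ∈ SWs v m | True} = SWs v m := by
    ext l
    simp
  rw [h3] at h2
  exact_mod_cast h2

theorem count_rare (hCN : S_CN) (m : ℕ) (E : List V → Prop) (η : ℝ)
    (hE : ∀ v, ({l ∈ SWs v m | E l}.ncard : ℝ) ≤ η * (SWs v m).ncard) (v : V)
    (F : Finset (List V)) (hF : ∀ l ∈ F, IsSW v m l ∧ E l) :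
    (F.card : ℝ) ≤ mu0 ^ m * (Real.exp (bt m) * η) := by
  have h1 := hE v
  rw [sw_card hCN v m, ← exp_bt hCN] at h1
  have h2 : (F.card : ℝ) ≤ {l ∈ SWs v m | E l}.ncard := by
    exact_mod_cast card_le_ncard hCN v m E F hF
  refine h2.trans (h1.trans (le_of_eq (by ring)))

/-- walks with large diameter are rare -/
theorem wide_rare (hLD : S_LD) : ∃ c0 N : ℝ, 0 < c0 ∧ c0 ≤ 1 ∧ 0 < N ∧ ∀ c : ℝ, 0 < c → c ≤ c0 →
    ∀ m : ℕ, 16 ≤ m → N ≤ m → ∀ (v : V) (F : Finset (List V)),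
    (∀ l ∈ F, IsSW v m l ∧ ∃ i j : ℕ, i ≤ m ∧ j ≤ m ∧
      (m : ℝ) ^ (1 - c / Real.log (Real.log m)) ≤ dst (gt l i) (gt l j)) →
    (F.card : ℝ) ≤ mu0 ^ m * Real.exp (-(m : ℝ) ^ (4 / 5 : ℝ)) := by
  obtain ⟨C0, hC0, h⟩ := hLD
  obtain ⟨c0, N, hc0, hc01, hN, hY⟩ := yv_bound C0 hC0
  refine ⟨c0, N, hc0, hc01, hN, ?_⟩
  intro c hc hcc m hm hmN v F hF
  have hll := loglog_ge m hm
  have hm16 : (16 : ℝ) ≤ m := by exact_mod_cast hm
  have hm1 : (1 : ℝ) ≤ m := by linarith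
  have hm0 : (0 : ℝ) < m := by linarith
  set w : ℝ := (m : ℝ) ^ (-(c0 / Real.log (Real.log m))) with hw
  have hw0 : 0 < w := by positivity
  have hw1 : w ≤ 1 := by
    rw [hw]
    refine Real.rpow_le_one_of_one_le_of_nonpos hm1 ?_
    have : 0 ≤ c0 / Real.log (Real.log m) := div_nonneg hc0.le (by linarith)
    linarith
  have hwm : w * m = (m : ℝ) ^ (1 - c0 / Real.log (Real.log m)) := by
    rw [hw, sub_eq_add_neg, add_comm, Real.rpow_add hm0, Real.rpow_one]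
  have h4 := hY m hm hmN
  have h45 : (1 : ℝ) ≤ (m : ℝ) ^ (4 / 5 : ℝ) := Real.one_le_rpow hm1 (by norm_num)
  have h5 := h w hw0 hw1 m (h45.trans h4) v F (fun l hl => by
    obtain ⟨h1, i, j, hi, hj, hd⟩ := hF l hl
    refine ⟨h1, i, j, hi, hj, ?_⟩
    rw [hwm]
    refine le_trans (Real.rpow_le_rpow_of_exponent_le hm1 ?_) hd
    have : c / Real.log (Real.log m) ≤ c0 / Real.log (Real.log m) :=
      div_le_div_of_nonneg_right hcc (by linarith)
    linarith)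
  refine h5.trans (mul_le_mul_of_nonneg_left (Real.exp_le_exp.mpr (neg_le_neg h4))
    (pow_pos mu0_pos m).le)

/-- **Final form.** -/
theorem fin_pieces (hCN : S_CN) (hLD : S_LD) (W : Set ℂ) (hW : IsOpen W) (hc : IsConnected W)
    (a b : ℂ) (hab : a ≠ b) (ε ε' : ℝ) (hε : ε = 1 ∨ ε = -1) (hε' : ε' = 1 ∨ ε' = -1) (r : ℝ)
    (hr : 0 < r) (ha : HD a ε r ⊆ W) (hb : HD b ε' r ⊆ W) (M : ℝ) :
    ∃ K : Set ℂ, K ⊆ W ∧ IsCompact K ∧ ∃ c C : ℝ, 0 < c ∧ 1 ≤ C ∧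
      (∀ m : ℕ, 2 ≤ m → 0 ≤ bt m ∧ bt m ≤ C * Real.log m ^ 2) ∧ ∀ δ : ℝ, 0 < δ → C * δ ≤ 1 →
      ∀ (D : Set V) (p q : V), Bd ε p → Bd ε' q →
      C * ‖(δ : ℂ) * emb p - a‖ ≤ 1 → C * ‖(δ : ℂ) * emb q - b‖ ≤ 1 →
      (∀ v : V, (δ : ℂ) * emb v ∈ K → v ∈ D) → Hd δ ε r p ⊆ D → Hd δ ε' r q ⊆ D →
      (∀ v ∈ D, ‖(δ : ℂ) * emb v‖ ≤ M) →
      0 < Z D p q ∧ Z D p q < ⊤ ∧ ∀ m : ℕ, 2 ≤ m → C * (m * Real.log (1 / δ) ^ 2) ≤ 1 / δ →
        (∀ (E : List V → Prop) (η : ℝ), 0 < η → η < 1 →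
          (∀ v, ({l ∈ SWs v m | E l}.ncard : ℝ) ≤ η * (SWs v m).ncard) →
          PE D p q (fun l => (bt m + 2) / Real.log (1 / η) * ((l.length - 1 : ℕ) : ℝ) <
            tot E m l) ≤ ENNReal.ofReal (Real.exp (-(c / (δ * m))))) ∧
        (C ≤ m → PE D p q (fun l => C * Real.log m ^ 2 / (m : ℝ) ^ (4 / 5 : ℝ) *
            ((l.length - 1 : ℕ) : ℝ) < tot (fun l => ∃ i j : ℕ, i ≤ m ∧ j ≤ m ∧
              (m : ℝ) ^ (1 - c / Real.log (Real.log m)) ≤ dst (gt l i) (gt l j)) m l) ≤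
          ENNReal.ofReal (Real.exp (-(c / (δ * m))))) := by
  obtain ⟨K, hK, hKc, c1, C1, hc1, hC1, h⟩ :=
    dom_pieces hCN W hW hc a b hab ε ε' hε hε' r hr ha hb M
  obtain ⟨c0, N, hc0, hc01, hN, hwide⟩ := wide_rare hLD
  obtain ⟨Ku, hKu, hup⟩ := sw_upper hCN
  have hbt : ∀ m : ℕ, 2 ≤ m → 0 ≤ bt m ∧ bt m ≤ Ku * Real.log m ^ 2 := by
    intro m hm
    refine ⟨bt_nonneg hCN m, ?_⟩
    have h1 := hup m hm
    have h2 := pow_pos mu0_pos m
    have h3 := sw_lower hCN m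
    unfold bt
    rw [Real.log_le_iff_le_exp (by
      have : (0 : ℝ) < (SWs (0, 0) m).ncard := by linarith
      positivity), div_le_iff₀ h2]
    linarith
  set C : ℝ := C1 + Ku + N + 16 with hC
  refine ⟨K, hK, hKc, min c1 c0, C, lt_min hc1 hc0, by linarith, ?_, ?_⟩
  · intro m hm
    refine ⟨(hbt m hm).1, (hbt m hm).2.trans ?_⟩
    exact mul_le_mul_of_nonneg_right (by linarith) (sq_nonneg _)
  intro δ hδ hCδ D p q hp hq hpa hqb hKD hpD hqD hDM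
  have hmono : ∀ x : ℝ, 0 ≤ x → C * x ≤ 1 → C1 * x ≤ 1 := fun x hx h1 =>
    (mul_le_mul_of_nonneg_right (by linarith) hx).trans h1
  obtain ⟨g1, g2, g3⟩ := h δ hδ (hmono δ hδ.le hCδ) D p q hp hq (hmono _ (norm_nonneg _) hpa)
    (hmono _ (norm_nonneg _) hqb) hKD hpD hqD hDM
  refine ⟨g1, g2, fun m hm hmδ => ?_⟩
  have hm0 : (0 : ℝ) < m := by
    have : 0 < m := by omega
    exact_mod_cast this
  have hmδ' : C1 * (m * Real.log (1 / δ) ^ 2) ≤ 1 / δ :=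
    (mul_le_mul_of_nonneg_right (by linarith) (by positivity)).trans hmδ
  have hX : 1 ≤ Real.exp (bt m) := Real.one_le_exp (hbt m hm).1
  have hexp : ENNReal.ofReal (Real.exp (-(c1 / (δ * m)))) ≤
      ENNReal.ofReal (Real.exp (-(min c1 c0 / (δ * m)))) := by
    refine ENNReal.ofReal_le_ofReal (Real.exp_le_exp.mpr (neg_le_neg ?_))
    exact div_le_div_of_nonneg_right (min_le_left _ _) (by positivity)
  constructor
  · intro E η hη hη1 hE
    refine le_trans (g3 m E (Real.exp (bt m)) η ((bt m + 2) / Real.log (1 / η)) hm hmδ' hX hη hη1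
      (by rw [Real.log_exp]) (count_all hCN m) (count_rare hCN m E η hE)) hexp
  · intro hCm
    have hm16 : 16 ≤ m := by
      have : (16 : ℝ) ≤ m := by linarith
      exact_mod_cast this
    have hm45 : 0 < (m : ℝ) ^ (4 / 5 : ℝ) := by positivity
    have hη1 : Real.exp (-(m : ℝ) ^ (4 / 5 : ℝ)) < 1 := by
      have h0 := Real.exp_lt_exp.mpr (show -(m : ℝ) ^ (4 / 5 : ℝ) < 0 by linarith)
      rwa [Real.exp_zero] at h0
    have hlogm : 1 ≤ Real.log m := by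
      rw [Real.le_log_iff_exp_le hm0]
      have := Real.exp_one_lt_d9
      linarith
    refine le_trans (g3 m _ (Real.exp (bt m)) (Real.exp (-(m : ℝ) ^ (4 / 5 : ℝ)))
      (C * Real.log m ^ 2 / (m : ℝ) ^ (4 / 5 : ℝ)) hm hmδ' hX (Real.exp_pos _) hη1 ?_
      (count_all hCN m) ?_) hexp
    · rw [Real.log_exp, one_div, ← Real.exp_neg, neg_neg, Real.log_exp]
      refine div_le_div_of_nonneg_right ?_ hm45.le
      have h5 := (hbt m hm).2
      have h6 : (1 : ℝ) ≤ Real.log m ^ 2 := one_le_pow₀ hlogm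
      have h7 : 2 ≤ (C1 + N + 16) * Real.log m ^ 2 := by nlinarith
      have h8 : C * Real.log m ^ 2 = Ku * Real.log m ^ 2 + (C1 + N + 16) * Real.log m ^ 2 := by
        rw [hC]
        ring
      linarith
    · intro v F hF
      refine (hwide (min c1 c0) (lt_min hc1 hc0) (min_le_right _ _) m hm16 (by linarith) v F
        hF).trans ?_
      refine mul_le_mul_of_nonneg_left ?_ (pow_pos mu0_pos m).le
      have h9 := Real.exp_pos (-(m : ℝ) ^ (4 / 5 : ℝ))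
      nlinarith

theorem s_cn : S_CN := Pool.Agent.Y67.QB.cn

end Pool.Agent.R644.SP
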