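import Pool.Agent.R644.SP.Fin

set_option autoImplicit false

/-! The moments of the mesoscopic displacements of the critical path in a domain. -/

namespace Pool.Agent.R644.SP

open H978R2.Hex
open Pool.Agent.Y981.QB
open Pool.Agent.W832.HR (Nbr Traj xc Z emb lv HD Hd Bd)
open scoped ENNReal

/-- the sum of the powers of the displacements of the `m`-step pieces -/
noncomputable def dsum (s : ℝ) (m : ℕ) (l : List V) : ℝ :=
  ∑ j ∈ Finset.range (l.length - m), dst (gt l j) (gt l (j + m)) ^ s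

/-- two vertices have distance at least `m ^ α` -/
def Wd (m : ℕ) (α : ℝ) (l : List V) : Prop :=
  ∃ i j : ℕ, i ≤ m ∧ j ≤ m ∧ (m : ℝ) ^ α ≤ dst (gt l i) (gt l j)

/-- few wide pieces give a bound for the sum of the powers of the displacements -/
theorem dsum_le {s : ℝ} (hs : 0 < s) {m : ℕ} (hm : 1 ≤ m) {α θ : ℝ}
    {v : V} {n : ℕ} {l : List V} (h : IsSW v n l) (hθ : (tot (Wd m α) m l : ℝ) ≤ θ * n) :
    dsum s m l ≤ (((m : ℝ) ^ α) ^ s + θ * (m : ℝ) ^ s) * n := by
  classical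
  have hlen := h.1
  have hm0 : (0 : ℝ) < m := by exact_mod_cast hm
  have hdn : ∀ x y : V, 0 ≤ dst x y := fun x y => norm_nonneg _
  have hterm : ∀ j ∈ Finset.range (l.length - m), dst (gt l j) (gt l (j + m)) ^ s ≤
      ((m : ℝ) ^ α) ^ s +
        if (j + m < l.length ∧ Wd m α ((l.drop j).take (m + 1))) then (m : ℝ) ^ s else 0 := by
    intro j hj
    rw [Finset.mem_range] at hj
    by_cases hw : Wd m α ((l.drop j).take (m + 1))
    · rw [if_pos ⟨by omega, hw⟩]
      have h1 := dst_le (gt l) n (fun i hi => gt_adj h.2.2.1 i (by omega)) (j + m) (by omega) j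
        (by omega)
      have h2 : dst (gt l j) (gt l (j + m)) ≤ m := by
        refine h1.trans (le_of_eq ?_)
        push_cast
        ring
      have h3 : dst (gt l j) (gt l (j + m)) ^ s ≤ (m : ℝ) ^ s :=
        Real.rpow_le_rpow (hdn _ _) h2 hs.le
      have h4 : 0 ≤ ((m : ℝ) ^ α) ^ s := by positivity
      linarith
    · rw [if_neg (fun h => hw h.2), add_zero]
      have h1 : dst (gt l j) (gt l (j + m)) < (m : ℝ) ^ α := by
        by_contra hcon
        rw [not_lt] at hcon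
        refine hw ⟨0, m, Nat.zero_le _, le_rfl, ?_⟩
        rw [gt_take _ _ _ (by rw [List.length_drop]; omega) (by omega),
          gt_take _ _ _ (by rw [List.length_drop]; omega) (by omega),
          gt_drop _ _ _ (by omega), gt_drop _ _ _ (by omega), add_zero]
        exact hcon
      exact Real.rpow_le_rpow (hdn _ _) h1.le hs.le
  have hnm : ((l.length - m : ℕ) : ℝ) ≤ n := by
    have : l.length - m ≤ n := by omega
    exact_mod_cast this
  calc dsum s m l ≤ ∑ j ∈ Finset.range (l.length - m), (((m : ℝ) ^ α) ^ s +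
        if (j + m < l.length ∧ Wd m α ((l.drop j).take (m + 1))) then (m : ℝ) ^ s else 0) :=
        Finset.sum_le_sum hterm
    _ = (l.length - m : ℕ) * ((m : ℝ) ^ α) ^ s +
        (((Finset.range (l.length - m)).filter
          (fun j => j + m < l.length ∧ Wd m α ((l.drop j).take (m + 1)))).card : ℝ) *
          (m : ℝ) ^ s := by
        rw [Finset.sum_add_distrib, ← Finset.sum_filter, Finset.sum_const, Finset.sum_const,
          Finset.card_range, nsmul_eq_mul, nsmul_eq_mul]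
    _ ≤ n * ((m : ℝ) ^ α) ^ s + (θ * n) * (m : ℝ) ^ s := by
        refine add_le_add (mul_le_mul_of_nonneg_right hnm (by positivity))
          (mul_le_mul_of_nonneg_right (le_trans ?_ hθ) (by positivity))
        unfold tot
        have h5 : ((Finset.range (l.length - m)).filter
            (fun j => j + m < l.length ∧ Wd m α ((l.drop j).take (m + 1)))) ⊆
            ((Finset.range l.length).filter
            (fun j => j + m < l.length ∧ Wd m α ((l.drop j).take (m + 1)))) :=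
          Finset.filter_subset_filter _ (Finset.range_subset_range.2 (by omega))
        exact_mod_cast Finset.card_le_card h5
    _ = _ := by ring

/-- the error term is small -/
theorem small_error (s c C1 : ℝ) (hs : 0 < s) (hc : 0 < c) (hsc : s * c ≤ 1 / 2) (hC1 : 0 ≤ C1) :
    ∃ N : ℝ, ∀ m : ℕ, 16 ≤ m → N ≤ m →
      C1 * Real.log m ^ 2 / (m : ℝ) ^ (4 / 5 : ℝ) * (m : ℝ) ^ s ≤
        ((m : ℝ) ^ (1 - c / Real.log (Real.log m))) ^ s := by
  have h1 : Filter.Tendsto (fun x : ℝ => C1 * Real.log x ^ (2 : ℝ) / x ^ (3 / 10 : ℝ))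
      Filter.atTop (nhds 0) := by
    have h2 := (isLittleO_log_rpow_rpow_atTop (s := 3 / 10) 2 (by norm_num)).tendsto_div_nhds_zero
    have h3 := h2.const_mul C1
    simp only [mul_zero] at h3
    refine h3.congr fun x => ?_
    ring
  have h2 : ∀ᶠ x : ℝ in Filter.atTop, C1 * Real.log x ^ (2 : ℝ) / x ^ (3 / 10 : ℝ) ≤ 1 :=
    h1.eventually (ge_mem_nhds one_pos)
  obtain ⟨N, hN⟩ := Filter.eventually_atTop.1 h2
  refine ⟨N, fun m hm hmN => ?_⟩
  have hll := loglog_ge m hm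
  have hm16 : (16 : ℝ) ≤ m := by exact_mod_cast hm
  have hm0 : (0 : ℝ) < m := by linarith
  have h3 := hN m hmN
  rw [show (2 : ℝ) = ((2 : ℕ) : ℝ) by norm_num, Real.rpow_natCast,
    div_le_iff₀ (by positivity), one_mul] at h3
  rw [← Real.rpow_mul hm0.le]
  have h4 : (m : ℝ) ^ (3 / 10 : ℝ) * (m : ℝ) ^ (s - 4 / 5) ≤
      (m : ℝ) ^ ((1 - c / Real.log (Real.log m)) * s) := by
    rw [← Real.rpow_add hm0]
    refine Real.rpow_le_rpow_of_exponent_le (by linarith) ?_
    have h5 : c / Real.log (Real.log m) * s ≤ 1 / 2 := by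
      rw [div_mul_eq_mul_div, div_le_iff₀ (by linarith)]
      nlinarith
    nlinarith
  have h5 : C1 * Real.log m ^ 2 / (m : ℝ) ^ (4 / 5 : ℝ) * (m : ℝ) ^ s =
      C1 * Real.log m ^ 2 * (m : ℝ) ^ (s - 4 / 5) := by
    rw [Real.rpow_sub hm0]
    ring
  rw [h5]
  exact (mul_le_mul_of_nonneg_right h3 (by positivity)).trans h4

/-- **Moments of the mesoscopic displacements.** -/
theorem fin_disp (hCN : S_CN) (hLD : S_LD) (W : Set ℂ) (hW : IsOpen W) (hc : IsConnected W)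
    (a b : ℂ) (hab : a ≠ b) (ε ε' : ℝ) (hε : ε = 1 ∨ ε = -1) (hε' : ε' = 1 ∨ ε' = -1) (r : ℝ)
    (hr : 0 < r) (ha : HD a ε r ⊆ W) (hb : HD b ε' r ⊆ W) (M s : ℝ) (hs : 0 < s) :
    ∃ K : Set ℂ, K ⊆ W ∧ IsCompact K ∧ ∃ c C : ℝ, 0 < c ∧ 1 ≤ C ∧ ∀ δ : ℝ, 0 < δ → C * δ ≤ 1 →
      ∀ (D : Set V) (p q : V), Bd ε p → Bd ε' q →
      C * ‖(δ : ℂ) * emb p - a‖ ≤ 1 → C * ‖(δ : ℂ) * emb q - b‖ ≤ 1 →
      (∀ v : V, (δ : ℂ) * emb v ∈ K → v ∈ D) → Hd δ ε r p ⊆ D → Hd δ ε' r q ⊆ D →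
      (∀ v ∈ D, ‖(δ : ℂ) * emb v‖ ≤ M) →
      0 < Z D p q ∧ Z D p q < ⊤ ∧ ∀ m : ℕ, C ≤ m → C * (m * Real.log (1 / δ) ^ 2) ≤ 1 / δ →
        PE D p q (fun l => 2 * ((m : ℝ) ^ (1 - c / Real.log (Real.log m))) ^ s *
            ((l.length - 1 : ℕ) : ℝ) < dsum s m l) ≤
          ENNReal.ofReal (Real.exp (-(c / (δ * m)))) := by
  obtain ⟨K, hK, hKc, c1, C1, hc1, hC1, h⟩ :=
    dom_pieces hCN W hW hc a b hab ε ε' hε hε' r hr ha hb M
  obtain ⟨c0, N, hc0, hc01, hN, hwide⟩ := wide_rare hLD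
  obtain ⟨Ku, hKu, hup⟩ := sw_upper hCN
  have hbt : ∀ m : ℕ, 2 ≤ m → 0 ≤ bt m ∧ bt m ≤ Ku * Real.log m ^ 2 := by
    intro m hm
    refine ⟨bt_nonneg hCN m, ?_⟩
    have h1 := hup m hm
    have h2 := pow_pos mu0_pos m
    have h3 := sw_lower hCN m
    unfold bt
    rw [Real.log_le_iff_le_exp (by
      have : (0 : ℝ) < (SWs (0, 0) m).ncard := by linarith
      positivity), div_le_iff₀ h2]
    linarith
  set c2 : ℝ := min (min c1 c0) (1 / (2 * s)) with hc2
  have hc2pos : 0 < c2 := lt_min (lt_min hc1 hc0) (by positivity)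
  have hc21 : c2 ≤ c1 := (min_le_left _ _).trans (min_le_left _ _)
  have hc20 : c2 ≤ c0 := (min_le_left _ _).trans (min_le_right _ _)
  have hc2s : s * c2 ≤ 1 / 2 := by
    have h1 : c2 ≤ 1 / (2 * s) := min_le_right _ _
    rw [le_div_iff₀ (by positivity)] at h1
    linarith
  obtain ⟨N1, hN1⟩ := small_error s c2 (Ku + 2) hs hc2pos hc2s (by linarith)
  set C : ℝ := C1 + N + |N1| + 16 with hC
  have hN1' := abs_nonneg N1
  refine ⟨K, hK, hKc, c2, C, hc2pos, by linarith, ?_⟩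
  intro δ hδ hCδ D p q hp hq hpa hqb hKD hpD hqD hDM
  have hmono : ∀ x : ℝ, 0 ≤ x → C * x ≤ 1 → C1 * x ≤ 1 := fun x hx h1 =>
    (mul_le_mul_of_nonneg_right (by linarith) hx).trans h1
  obtain ⟨g1, g2, g3⟩ := h δ hδ (hmono δ hδ.le hCδ) D p q hp hq (hmono _ (norm_nonneg _) hpa)
    (hmono _ (norm_nonneg _) hqb) hKD hpD hqD hDM
  refine ⟨g1, g2, fun m hCm hmδ => ?_⟩
  have hm16 : 16 ≤ m := by
    have : (16 : ℝ) ≤ m := by linarith
    exact_mod_cast this
  have hm16' : (16 : ℝ) ≤ m := by exact_mod_cast hm16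
  have hm0 : (0 : ℝ) < m := by linarith
  have hm2 : 2 ≤ m := by omega
  have hmδ' : C1 * (m * Real.log (1 / δ) ^ 2) ≤ 1 / δ :=
    (mul_le_mul_of_nonneg_right (by linarith) (by positivity)).trans hmδ
  have hX : 1 ≤ Real.exp (bt m) := Real.one_le_exp (hbt m hm2).1
  have hexp : ENNReal.ofReal (Real.exp (-(c1 / (δ * m)))) ≤
      ENNReal.ofReal (Real.exp (-(c2 / (δ * m)))) := by
    refine ENNReal.ofReal_le_ofReal (Real.exp_le_exp.mpr (neg_le_neg ?_))
    exact div_le_div_of_nonneg_right hc21 (by positivity)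
  have hm45 : 0 < (m : ℝ) ^ (4 / 5 : ℝ) := by positivity
  have hη1 : Real.exp (-(m : ℝ) ^ (4 / 5 : ℝ)) < 1 := by
    have h0 := Real.exp_lt_exp.mpr (show -(m : ℝ) ^ (4 / 5 : ℝ) < 0 by linarith)
    rwa [Real.exp_zero] at h0
  have hlogm : 1 ≤ Real.log m := by
    rw [Real.le_log_iff_exp_le hm0]
    have := Real.exp_one_lt_d9
    linarith
  have hmain := g3 m (Wd m (1 - c2 / Real.log (Real.log m))) (Real.exp (bt m))
    (Real.exp (-(m : ℝ) ^ (4 / 5 : ℝ)))
    ((Ku + 2) * Real.log m ^ 2 / (m : ℝ) ^ (4 / 5 : ℝ)) hm2 hmδ' hX (Real.exp_pos _) hη1 ?_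
    (count_all hCN m) ?_
  · refine le_trans ?_ (hmain.trans hexp)
    -- inclusion of the events
    unfold PE ZE
    refine ENNReal.div_le_div_right ?_ _
    refine ENNReal.tsum_comp_le_tsum_of_injective
      (f := fun l : {l : List V // l ∈ Traj D p q ∧ 2 * ((m : ℝ) ^ (1 - c2 /
        Real.log (Real.log m))) ^ s * ((l.length - 1 : ℕ) : ℝ) < dsum s m l} =>
        (⟨l.1, l.2.1, ?_⟩ : {l : List V // l ∈ Traj D p q ∧
          (Ku + 2) * Real.log m ^ 2 / (m : ℝ) ^ (4 / 5 : ℝ) * ((l.length - 1 : ℕ) : ℝ) <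
            tot (Wd m (1 - c2 / Real.log (Real.log m))) m l})) ?_ (fun l => xc ^ (l.1.length - 1))
    · obtain ⟨l, hl1, hl2⟩ := l
      show (Ku + 2) * Real.log m ^ 2 / (m : ℝ) ^ (4 / 5 : ℝ) * ((l.length - 1 : ℕ) : ℝ) <
            tot (Wd m (1 - c2 / Real.log (Real.log m))) m l
      by_contra hcon
      rw [not_lt] at hcon
      have h5 := dsum_le hs (by omega : 1 ≤ m) (traj_isSW hl1) hcon
      have h6 := hN1 m hm16 (by
        have := le_abs_self N1
        linarith)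
      have h7 : (0 : ℝ) ≤ ((l.length - 1 : ℕ) : ℝ) := Nat.cast_nonneg _
      have h8 := mul_le_mul_of_nonneg_right h6 h7
      have h9 : dsum s m l ≤ 2 * ((m : ℝ) ^ (1 - c2 / Real.log (Real.log m))) ^ s *
          ((l.length - 1 : ℕ) : ℝ) := by
        refine h5.trans ?_
        rw [add_mul]
        linarith
      exact absurd hl2 (not_lt.2 h9)
    · intro x y hxy
      exact Subtype.ext (congrArg (fun z => z.1) hxy)
  · rw [Real.log_exp, one_div, ← Real.exp_neg, neg_neg, Real.log_exp]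
    refine div_le_div_of_nonneg_right ?_ hm45.le
    have h5 := (hbt m hm2).2
    have h6 : (1 : ℝ) ≤ Real.log m ^ 2 := one_le_pow₀ hlogm
    nlinarith
  · intro v F hF
    refine (hwide c2 hc2pos hc20 m hm16 (by linarith) v F hF).trans ?_
    refine mul_le_mul_of_nonneg_left ?_ (pow_pos mu0_pos m).le
    have h9 := Real.exp_pos (-(m : ℝ) ^ (4 / 5 : ℝ))
    nlinarith

end Pool.Agent.R644.SP
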